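import Pool.Agent.H80.LD.Targets

/-!
# Row SGP: decay of differences of bounded reflection positive semigroups
-/

set_option autoImplicit false

open Filter Topology Finset
open Pool.Agent.H80.LD

namespace Pool.Agent.H96.LD

section

variable {W : Type} [AddCommGroup W] [Module ℝ W]

/-- Cauchy-Schwarz for a symmetric positive semidefinite form. -/
theorem sgp_cs (B : W →ₗ[ℝ] W →ₗ[ℝ] ℝ) (hs : ∀ F G, B F G = B G F) (hp : ∀ F, 0 ≤ B F F)
    (F G : W) : (B F G) ^ 2 ≤ B F F * B G G := by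
  have h : ∀ x : ℝ, 0 ≤ B G G * (x * x) + (2 * B F G) * x + B F F := by
    intro x
    have h1 := hp (F + x • G)
    have e : B (F + x • G) (F + x • G) = B G G * (x * x) + (2 * B F G) * x + B F F := by
      simp only [map_add, map_smul, LinearMap.add_apply, LinearMap.smul_apply, smul_eq_mul]
      rw [hs G F]
      ring
    rwa [e] at h1
  have h2 := discrim_le_zero h
  unfold discrim at h2
  nlinarith

/-- The function `s ↦ B F (τ s F)` is at most its value at zero. -/
theorem sgp_beta (B : W →ₗ[ℝ] W →ₗ[ℝ] ℝ) (τ : ℝ → W →ₗ[ℝ] W)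
    (hs : ∀ F G, B F G = B G F) (hp : ∀ F, 0 ≤ B F F)
    (hadd : ∀ s t F, 0 ≤ s → 0 ≤ t → τ (s + t) F = τ s (τ t F))
    (hsym : ∀ s F G, 0 ≤ s → B F (τ s G) = B (τ s F) G)
    (hb : ∀ F, ∃ K : ℝ, ∀ s, 0 ≤ s → B F (τ s F) ≤ K) (F : W) (s : ℝ) (h0s : 0 ≤ s) :
    B F (τ s F) ≤ B F F := by
  -- doubling
  have hd : ∀ s : ℝ, 0 ≤ s → (B F (τ s F)) ^ 2 ≤ B F F * B F (τ (2 * s) F) := by
    intro s hs0
    have h1 := sgp_cs B hs hp F (τ s F)
    have e : B (τ s F) (τ s F) = B F (τ (2 * s) F) := by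
      rw [two_mul, hadd s s F hs0 hs0, hsym s F (τ s F) hs0]
    rwa [e] at h1
  by_contra hcon
  have hcon : B F F < B F (τ s F) := lt_of_not_ge hcon
  rcases (hp F).eq_or_lt with h0 | h0
  · have h1 := hd s h0s
    rw [← h0, zero_mul] at h1
    have h2 : B F (τ s F) = 0 := by nlinarith
    rw [← h0, h2] at hcon
    exact lt_irrefl _ hcon
  · set b := B F F with hbdef
    set r := B F (τ s F) / b with hr
    have hr1 : 1 < r := by rw [hr, one_lt_div h0]; exact hcon
    have hk : ∀ k : ℕ, b * r ^ (2 ^ k) ≤ B F (τ (2 ^ k * s) F) := by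
      intro k
      induction k with
      | zero =>
        simp only [pow_zero, pow_one, one_mul]
        rw [hr, mul_div_cancel₀ _ h0.ne']
      | succ k ih =>
        have h1 := hd (2 ^ k * s) (by positivity)
        have e1 : (2 : ℝ) * (2 ^ k * s) = 2 ^ (k + 1) * s := by ring
        rw [e1] at h1
        have h2 : (b * r ^ (2 ^ k)) ^ 2 ≤ (B F (τ (2 ^ k * s) F)) ^ 2 :=
          pow_le_pow_left₀ (by positivity) ih 2
        have e2 : (b * r ^ (2 ^ k)) ^ 2 = b * (b * r ^ (2 ^ (k + 1))) := by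
          rw [mul_pow, ← pow_mul, pow_succ 2 k]
          ring
        rw [e2] at h2
        exact le_of_mul_le_mul_left (h2.trans h1) h0
    obtain ⟨K, hK⟩ := hb F
    obtain ⟨n, hn⟩ := pow_unbounded_of_one_lt (K / b) hr1
    have h1 := (hk n).trans (hK _ (by positivity))
    have h2 : r ^ n ≤ r ^ (2 ^ n) := pow_le_pow_right₀ hr1.le (Nat.lt_two_pow_self).le
    rw [div_lt_iff₀ h0] at hn
    nlinarith

variable (B : W →ₗ[ℝ] W →ₗ[ℝ] ℝ) (τ : ℝ → W →ₗ[ℝ] W) (h : ℝ)

/-- The difference operator. -/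
noncomputable def sgpD (τ : ℝ → W →ₗ[ℝ] W) (h : ℝ) : Module.End ℝ W := 1 - τ h

theorem sgpD_apply (F : W) : sgpD τ h F = F - τ h F := rfl

/-- The difference operator is symmetric. -/
theorem sgpD_symm (hh : 0 ≤ h) (hsym : ∀ s F G, 0 ≤ s → B F (τ s G) = B (τ s F) G) (m : ℕ)
    (F G : W) : B F ((sgpD τ h ^ m) G) = B ((sgpD τ h ^ m) F) G := by
  induction m generalizing F G with
  | zero => simp
  | succ m ih =>
    have h1 : ∀ F G : W, B F (sgpD τ h G) = B (sgpD τ h F) G := by
      intro F G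
      rw [sgpD_apply, sgpD_apply, map_sub, hsym h F G hh, map_sub, LinearMap.sub_apply]
    rw [pow_succ, Module.End.mul_apply, ih, h1, ← Module.End.mul_apply, ← pow_succ',
      ← pow_succ]

/-- The difference operator commutes with the semigroup. -/
theorem sgpD_comm (hh : 0 ≤ h) (hadd : ∀ s t F, 0 ≤ s → 0 ≤ t → τ (s + t) F = τ s (τ t F))
    (m : ℕ) (s : ℝ) (hs : 0 ≤ s) (F : W) :
    (sgpD τ h ^ m) (τ s F) = τ s ((sgpD τ h ^ m) F) := by
  induction m generalizing F with
  | zero => simp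
  | succ m ih =>
    have h1 : sgpD τ h (τ s F) = τ s (sgpD τ h F) := by
      rw [sgpD_apply, sgpD_apply, map_sub, ← hadd h s F hh hs, ← hadd s h F hs hh, add_comm]
    rw [pow_succ, Module.End.mul_apply, h1, ih]
    rfl

/-- Expansion of the iterated difference. -/
theorem sgpD_sum (hh : 0 ≤ h) (hadd : ∀ s t F, 0 ≤ s → 0 ≤ t → τ (s + t) F = τ s (τ t F))
    (m : ℕ) (t : ℝ) (ht : 0 ≤ t) (F G : W) :
    ∑ i ∈ Finset.range (m + 1), (-1) ^ i * (m.choose i : ℝ) * B F (τ (t + i * h) G) =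
      B F ((sgpD τ h ^ m) (τ t G)) := by
  have hT : ∀ i : ℕ, ((τ h : Module.End ℝ W) ^ i) (τ t G) = τ (t + i * h) G := by
    intro i
    induction i with
    | zero => simp
    | succ i ih =>
      rw [pow_succ', Module.End.mul_apply, ih, ← hadd h _ G hh (by positivity)]
      congr 1
      push_cast
      ring_nf
  have hD : sgpD τ h ^ m = ∑ i ∈ Finset.range (m + 1),
      ((-1 : ℝ) ^ i * (m.choose i : ℝ)) • ((τ h : Module.End ℝ W) ^ i) := by
    have e : sgpD τ h = -(τ h : Module.End ℝ W) + 1 := by unfold sgpD; abel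
    rw [e, (Commute.one_right (-(τ h : Module.End ℝ W))).add_pow]
    refine Finset.sum_congr rfl fun i _ => ?_
    rw [one_pow, mul_one, neg_pow, ← nsmul_eq_mul']
    ext x
    rw [LinearMap.smul_apply, LinearMap.smul_apply, mul_smul]
    rcases Nat.even_or_odd i with hi | hi
    · rw [hi.neg_one_pow, hi.neg_one_pow, one_mul, one_smul, Nat.cast_smul_eq_nsmul]
    · rw [hi.neg_one_pow, hi.neg_one_pow, neg_one_mul, LinearMap.neg_apply, neg_one_smul,
        Nat.cast_smul_eq_nsmul, smul_neg]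
  rw [hD, LinearMap.sum_apply, map_sum]
  refine Finset.sum_congr rfl fun i _ => ?_
  rw [LinearMap.smul_apply, map_smul, hT, smul_eq_mul]

/-- Positivity of the iterated differences. -/
theorem sgpD_nonneg (hh : 0 ≤ h) (hs : ∀ F G, B F G = B G F) (hp : ∀ F, 0 ≤ B F F)
    (hadd : ∀ s t F, 0 ≤ s → 0 ≤ t → τ (s + t) F = τ s (τ t F))
    (hsym : ∀ s F G, 0 ≤ s → B F (τ s G) = B (τ s F) G)
    (hb : ∀ F, ∃ K : ℝ, ∀ s, 0 ≤ s → B F (τ s F) ≤ K) (m : ℕ) (t : ℝ) (ht : 0 ≤ t) (F : W) :
    0 ≤ B F ((sgpD τ h ^ m) (τ t F)) := by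
  -- first at time zero
  have h0 : ∀ (m : ℕ) (F : W), 0 ≤ B F ((sgpD τ h ^ m) F) := by
    intro m F
    rcases Nat.even_or_odd' m with ⟨j, rfl | rfl⟩
    · rw [two_mul, pow_add, Module.End.mul_apply, sgpD_symm B τ h hh hsym]
      exact hp _
    · have e : sgpD τ h ^ (2 * j + 1) = sgpD τ h ^ j * (sgpD τ h * sgpD τ h ^ j) := by
        rw [← pow_succ', ← pow_add]
        congr 1
        ring
      rw [e, Module.End.mul_apply, sgpD_symm B τ h hh hsym, Module.End.mul_apply, sgpD_apply,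
        map_sub]
      exact sub_nonneg.2 (sgp_beta B τ hs hp hadd hsym hb _ h hh)
  have e : B F ((sgpD τ h ^ m) (τ t F)) =
      B (τ (t / 2) F) ((sgpD τ h ^ m) (τ (t / 2) F)) := by
    rw [← hsym (t / 2) F _ (by positivity), ← sgpD_comm τ h hh hadd m (t / 2) (by positivity),
      ← hadd (t / 2) (t / 2) F (by positivity) (by positivity), add_halves]
  rw [e]
  exact h0 m _

/-- The difference in `t`. -/
theorem sgpD_step (hh : 0 ≤ h) (hadd : ∀ s t F, 0 ≤ s → 0 ≤ t → τ (s + t) F = τ s (τ t F))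
    (m : ℕ) (t : ℝ) (ht : 0 ≤ t) (F G : W) :
    B F ((sgpD τ h ^ (m + 1)) (τ t G)) =
      B F ((sgpD τ h ^ m) (τ t G)) - B F ((sgpD τ h ^ m) (τ (t + h) G)) := by
  rw [pow_succ, Module.End.mul_apply, sgpD_apply, ← hadd h t G hh ht, map_sub, map_sub,
    add_comm h t]

end

/-- (SGP) -/
theorem pf_SGP : T_SGP := by
  intro W _ _ B τ hs hp h0 hadd hsym hb m t h hh hmt F G
  have hh0 : 0 ≤ h := hh.le
  have ht : 0 ≤ t := le_trans (by positivity) hmt
  rw [sgpD_sum B τ h hh0 hadd m t ht F G]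
  -- the diagonal bound
  have hpos := fun (m : ℕ) (t : ℝ) (ht : 0 ≤ t) (F : W) =>
    sgpD_nonneg B τ h hh0 hs hp hadd hsym hb m t ht F
  have hone : ∀ (N : ℕ) (m : ℕ) (t : ℝ) (F : W), (N : ℝ) * h ≤ t →
      (N : ℝ) * B F ((sgpD τ h ^ (m + 1)) (τ t F)) ≤
        B F ((sgpD τ h ^ m) (τ (t - N * h) F)) - B F ((sgpD τ h ^ m) (τ t F)) := by
    intro N m t F hN
    induction N with
    | zero => simp
    | succ N ih =>
      push_cast at hN ⊢
      have h1 := ih (by nlinarith)
      -- one more step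
      have h2 := sgpD_step B τ h hh0 hadd m (t - (N + 1) * h) (by linarith) F F
      rw [show t - ((N : ℝ) + 1) * h + h = t - N * h by ring] at h2
      have h3 : B F ((sgpD τ h ^ (m + 1)) (τ t F)) ≤
          B F ((sgpD τ h ^ (m + 1)) (τ (t - ((N : ℝ) + 1) * h) F)) := by
        have h4 : ∀ j : ℕ, (j : ℝ) * h ≤ t → B F ((sgpD τ h ^ (m + 1)) (τ t F)) ≤
            B F ((sgpD τ h ^ (m + 1)) (τ (t - j * h) F)) := by
          intro j hj
          induction j with
          | zero => simp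
          | succ j ihj =>
            push_cast at hj ⊢
            have h5 := ihj (by nlinarith)
            have h6 := sgpD_step B τ h hh0 hadd (m + 1) (t - (j + 1) * h) (by linarith) F F
            rw [show t - ((j : ℝ) + 1) * h + h = t - j * h by ring] at h6
            have h7 := hpos (m + 1 + 1) (t - (j + 1) * h) (by linarith) F
            linarith
        have h5 := h4 (N + 1) (by push_cast; linarith)
        push_cast at h5
        exact h5
      nlinarith
  have hall : ∀ (N : ℕ) (m : ℕ) (t : ℝ) (F : W), (m : ℝ) * (N * h) ≤ t →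
      (N : ℝ) ^ m * B F ((sgpD τ h ^ m) (τ t F)) ≤ B F (τ (t - m * (N * h)) F) := by
    intro N m
    induction m with
    | zero => intro t F _; simp
    | succ m ih =>
      intro t F hN
      push_cast at hN ⊢
      have hNh : 0 ≤ (N : ℝ) * h := by positivity
      have hmN : 0 ≤ (m : ℝ) * (N * h) := by positivity
      have ht : 0 ≤ t := by nlinarith
      have h1 := hone N m t F (by nlinarith)
      have h2 := ih (t - N * h) F (by nlinarith)
      have h3 := hpos m t ht F
      have h4 : (N : ℝ) ^ (m + 1) * B F ((sgpD τ h ^ (m + 1)) (τ t F)) ≤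
          (N : ℝ) ^ m * B F ((sgpD τ h ^ m) (τ (t - N * h) F)) := by
        rw [pow_succ, mul_assoc]
        exact mul_le_mul_of_nonneg_left (by linarith) (by positivity)
      refine h4.trans (h2.trans (le_of_eq ?_))
      congr 3
      ring
  have hdiag : ∀ F : W, B F ((sgpD τ h ^ m) (τ t F)) ≤ (2 * m * h / t) ^ m * B F F := by
    intro F
    rcases Nat.eq_zero_or_pos m with rfl | hm
    · rw [pow_zero, pow_zero, one_mul]
      exact sgp_beta B τ hs hp hadd hsym hb F t ht
    · have hm1 : (1 : ℝ) ≤ m := by exact_mod_cast hm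
      have hmh : 0 < (m : ℝ) * h := by positivity
      have ht0 : 0 < t := hmh.trans_le hmt
      set N := ⌊t / (m * h)⌋₊ with hN
      have hq : 1 ≤ t / (m * h) := (one_le_div hmh).2 hmt
      have hN1 : 1 ≤ N := Nat.one_le_iff_ne_zero.2 (Nat.floor_pos.2 hq).ne'
      have hN2 : (N : ℝ) ≤ t / (m * h) := Nat.floor_le (by positivity)
      have hN3 : t / (m * h) < N + 1 := Nat.lt_floor_add_one _
      have hN4 : (1 : ℝ) ≤ N := by exact_mod_cast hN1
      have h1 := hall N m t F (by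
        rw [le_div_iff₀ hmh] at hN2
        linarith)
      have h2 : B F (τ (t - m * (N * h)) F) ≤ B F F :=
        sgp_beta B τ hs hp hadd hsym hb F _ (by
          rw [le_div_iff₀ hmh] at hN2
          linarith)
      have h3 := h1.trans h2
      have h4 : 1 ≤ (2 * m * h / t) * N := by
        rw [div_mul_eq_mul_div, one_le_div ht0]
        rw [div_lt_iff₀ hmh] at hN3
        nlinarith
      have h5 : B F ((sgpD τ h ^ m) (τ t F)) ≤
          ((2 * m * h / t) * N) ^ m * B F ((sgpD τ h ^ m) (τ t F)) :=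
        le_mul_of_one_le_left (hpos m t ht F) (one_le_pow₀ h4)
      refine h5.trans ?_
      rw [mul_pow, mul_assoc]
      exact mul_le_mul_of_nonneg_left h3 (by positivity)
  -- Cauchy-Schwarz for the new form
  let B' : W →ₗ[ℝ] W →ₗ[ℝ] ℝ := B.compl₂ ((sgpD τ h ^ m) ∘ₗ (τ t))
  have hB' : ∀ F G, B' F G = B F ((sgpD τ h ^ m) (τ t G)) := fun F G => rfl
  have hs' : ∀ F G, B' F G = B' G F := by
    intro F G
    rw [hB', hB', sgpD_symm B τ h hh0 hsym m F, hsym t _ _ ht, hs _ G,
      ← sgpD_comm τ h hh0 hadd m t ht F]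
  have hcs := sgp_cs B' hs' (fun F => by rw [hB']; exact hpos m t ht F) F G
  rw [hB', hB', hB'] at hcs
  have h1 := hdiag F
  have h2 := hdiag G
  have hc0 : 0 ≤ (2 * m * h / t) ^ m := by positivity
  have h3 : (B F ((sgpD τ h ^ m) (τ t G))) ^ 2 ≤
      ((2 * m * h / t) ^ m * (Real.sqrt (B F F) * Real.sqrt (B G G))) ^ 2 := by
    refine hcs.trans ((mul_le_mul h1 h2 (hpos m t ht G) (mul_nonneg hc0 (hp F))).trans
      (le_of_eq ?_))
    rw [mul_pow, mul_pow, Real.sq_sqrt (hp F), Real.sq_sqrt (hp G)]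
    ring
  exact abs_le_of_sq_le_sq' h3 (by positivity) |> abs_le.2

end Pool.Agent.H96.LD
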